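import Pool.Agent.helper94.PL.Spec

/-!
# Module pl2:RA2. Continuation of the identity of a ray to all potentials
-/

set_option autoImplicit false

open Complex Metric Set Filter Topology MeasureTheory MPS
open Pool.Agent.helper16.Multibrot

noncomputable section

namespace PLY

/-- the iterates of `fc n c` are differentiable. -/
theorem RA2_diff (n : ℕ) (c : ℂ) (m : ℕ) : Differentiable ℂ ((fc n c)^[m]) := by
  have h1 : Differentiable ℂ (fc n c) := by
    unfold fc
    fun_prop
  induction m with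
  | zero => exact differentiable_id
  | succ k ih =>
    rw [Function.iterate_succ']
    exact h1.comp ih

/-- local injectivity of a holomorphic function with nonzero derivative. -/
theorem RA2_inj (F : ℂ → ℂ) (hF : Differentiable ℂ F) (x : ℂ) (hx : deriv F x ≠ 0) :
    ∃ U ∈ 𝓝 x, InjOn F U := by
  have ha : AnalyticAt ℂ F x := hF.analyticAt x
  have hs : HasStrictDerivAt F (deriv F x) x := ha.hasStrictDerivAt
  have h2 := HasStrictDerivAt.eventually_left_inverse hs hx
  refine ⟨_, h2, ?_⟩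
  intro u hu v hv huv
  rw [← (show HasStrictDerivAt.localInverse F (deriv F x) x hs hx (F u) = u from hu), huv]
  exact hv

theorem RA2 (hB : BNZ_stmt) (hR : RFE_stmt) : RA2_stmt := by
  intro n m c E θ γ T hn hc hE hm hθ hγ hfe hT hbig
  obtain ⟨hdiff, hfeq, -⟩ := hR n c E hn hc hE
  obtain ⟨-, hnz⟩ := hB n c E hn hc hE
  set b : ℝ → ℂ := fun t => ry E θ t with hb
  have hbcont : ContinuousOn b (Ioi 0) := by
    have h1 : ContinuousOn (ry E θ) RH := (hdiff θ).continuousOn
    refine h1.comp (Complex.continuous_ofReal.continuousOn) ?_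
    intro t ht
    simpa [RH] using ht
  have hbf : ∀ t : ℝ, 0 < t → (fc n c)^[m] (b t) = b ((n : ℝ) ^ m * t) := by
    intro t ht
    have h1 := hfeq θ m hθ (t : ℂ) (by simpa [RH] using ht)
    rw [hb]
    simp only
    rw [h1]
    push_cast
    rfl
  have hder : ∀ t : ℝ, 0 < t → deriv ((fc n c)^[m]) (b t) ≠ 0 := by
    intro t ht
    refine (hnz _ ?_).2.2 m
    rw [Complex.norm_exp]
    simpa using ht
  have hL : (1 : ℝ) < (n : ℝ) ^ m := by
    have h1 : (1 : ℝ) < n := by exact_mod_cast hn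
    exact one_lt_pow₀ h1 hm.ne'
  -- the set of good potentials
  set A : Set ℝ := {t | 0 < t ∧ ∀ s : ℝ, t ≤ s → γ s = b s} with hA
  have hTA : T ∈ A := ⟨hT, hbig⟩
  have hAb : BddBelow A := ⟨0, fun t ht => ht.1.le⟩
  have hs0 : 0 ≤ sInf A := le_csInf ⟨T, hTA⟩ (fun t ht => ht.1.le)
  have hgt : ∀ t : ℝ, sInf A < t → γ t = b t := by
    intro t ht
    obtain ⟨u, hu, hut⟩ := (csInf_lt_iff hAb ⟨T, hTA⟩).1 ht
    exact hu.2 t hut.le
  rcases hs0.eq_or_lt with h0 | h0
  · intro t ht
    exact hgt t (by rw [← h0]; exact ht)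
  exfalso
  set s := sInf A with hs
  have hγs : ContinuousAt γ s := hγ.continuousAt (Ioi_mem_nhds h0)
  have hbs : ContinuousAt b s := hbcont.continuousAt (Ioi_mem_nhds h0)
  have heq : γ s = b s := by
    have h1 : Tendsto γ (𝓝[>] s) (𝓝 (γ s)) := hγs.tendsto.mono_left nhdsWithin_le_nhds
    have h2 : Tendsto b (𝓝[>] s) (𝓝 (b s)) := hbs.tendsto.mono_left nhdsWithin_le_nhds
    have h3 : γ =ᶠ[𝓝[>] s] b := by
      filter_upwards [self_mem_nhdsWithin] with t ht
      exact hgt t ht
    exact tendsto_nhds_unique (h1.congr' h3) h2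
  obtain ⟨U, hU, hinj⟩ := RA2_inj _ (RA2_diff n c m) (b s) (hder s h0)
  have e1 : ∀ᶠ t in 𝓝 s, γ t ∈ U := hγs.tendsto (by rw [heq]; exact hU)
  have e2 : ∀ᶠ t in 𝓝 s, b t ∈ U := hbs.tendsto hU
  have e3 : ∀ᶠ t in 𝓝 s, s < (n : ℝ) ^ m * t := by
    have h1 : ContinuousAt (fun t : ℝ => (n : ℝ) ^ m * t) s := by fun_prop
    have h2 : s < (n : ℝ) ^ m * s := by nlinarith
    exact h1.tendsto.eventually_const_lt h2
  have e4 : ∀ᶠ t in 𝓝 s, 0 < t := Ioi_mem_nhds h0
  obtain ⟨δ, hδ, hball⟩ := Metric.eventually_nhds_iff.1 (e1.and (e2.and (e3.and e4)))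
  have hsA : s - δ / 2 ∈ A ∨ s - δ / 2 ≤ 0 := by
    by_cases hle : s - δ / 2 ≤ 0
    · exact Or.inr hle
    left
    refine ⟨by linarith, fun t ht => ?_⟩
    rcases lt_or_ge s t with hst | hst
    · exact hgt t hst
    obtain ⟨g1, g2, g3, g4⟩ := hball (y := t) (by
      rw [Real.dist_eq, abs_lt]; constructor <;> linarith)
    apply hinj g1 g2
    rw [hfe t g4, hbf t g4]
    exact hgt _ g3
  rcases hsA with h | h
  · have := csInf_le hAb h
    linarith
  · -- then every positive `t ≤ s` is within `δ` of `s`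
    have hmem : s / 2 ∈ A := by
      refine ⟨by linarith, fun t ht => ?_⟩
      rcases lt_or_ge s t with hst | hst
      · exact hgt t hst
      obtain ⟨g1, g2, g3, g4⟩ := hball (y := t) (by
        rw [Real.dist_eq, abs_lt]; constructor <;> linarith)
      apply hinj g1 g2
      rw [hfe t g4, hbf t g4]
      exact hgt _ g3
    have := csInf_le hAb hmem
    linarith

end PLY
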